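import Pool.Agent.K1H72.OP.Stm

/-!
# Project OP (MP_b2a904_nt), piece OP-11

The modular transformation of `D q = ∏ (1 - q^(2j))` and the lower bound of `D` near `q = 1`.
-/

namespace K1H59.OP

open K1H72.OP Complex Filter

theorem sqrt_ratio (τ : ℂ) (hτ : 0 < τ.re) :
    Complex.sqrt I / Complex.sqrt (I * (τ / (Real.pi : ℂ))) =
      ((Real.pi : ℂ) / τ) ^ (1 / 2 : ℂ) := by
  have hpi : (0 : ℝ) < Real.pi := Real.pi_pos
  have hτ0 : τ ≠ 0 := fun h => by simp [h] at hτ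
  have hpc : (Real.pi : ℂ) ≠ 0 := by exact_mod_cast hpi.ne'
  set w : ℂ := τ / (Real.pi : ℂ) with hw
  have hw0 : w ≠ 0 := div_ne_zero hτ0 hpc
  have hwre : 0 < w.re := by
    have : w.re = τ.re / Real.pi := by
      rw [hw]
      simp [Complex.div_re, Complex.normSq_ofReal]
      field_simp
    rw [this]
    positivity
  have harg : |w.arg| < Real.pi / 2 := Complex.abs_arg_lt_pi_div_two_iff.mpr (Or.inl hwre)
  rw [abs_lt] at harg
  have hlog : Complex.log (I * w) = Complex.log I + Complex.log w := by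
    apply (Complex.log_mul_eq_add_log_iff I_ne_zero hw0).mpr
    rw [Complex.arg_I]
    constructor <;> linarith [harg.1, harg.2]
  have hinv : Complex.log ((Real.pi : ℂ) / τ) = -Complex.log w := by
    have h1 : (Real.pi : ℂ) / τ = w⁻¹ := by rw [hw, inv_div]
    rw [h1, Complex.log_inv]
    intro h
    rw [h] at harg
    linarith [harg.2]
  rw [sqrt_eq_exp I_ne_zero, sqrt_eq_exp (mul_ne_zero I_ne_zero hw0), hlog,
    Complex.cpow_def_of_ne_zero (div_ne_zero hpc hτ0), hinv, ← Complex.exp_sub]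
  congr 1
  ring

theorem t_MOD : S_MOD := by
  intro τ hτ
  have hpi : (0 : ℝ) < Real.pi := Real.pi_pos
  have hτ0 : τ ≠ 0 := fun h => by simp [h] at hτ
  have hpc : (Real.pi : ℂ) ≠ 0 := by exact_mod_cast hpi.ne'
  set z : ℂ := I * (τ / (Real.pi : ℂ)) with hz
  have hzim : 0 < z.im := by
    have : z.im = τ.re / Real.pi := by
      rw [hz]
      simp [Complex.div_re, Complex.normSq_ofReal]
      field_simp
    rw [this]
    positivity
  have hz0 : z ≠ 0 := fun h => by rw [h] at hzim; simp at hzim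
  have hmem : z ∈ UpperHalfPlane.upperHalfPlaneSet := hzim
  have key := ModularForm.eta_comp_eq_csqrt_I_inv hmem
  have hneg : -1 / z = I * ((Real.pi : ℂ) / τ) := by
    rw [hz]
    field_simp
    rw [I_sq]
  simp only [Function.comp_apply, Pi.smul_apply, Pi.mul_apply, smul_eq_mul] at key
  rw [hneg] at key
  -- the two values of eta
  have e1 : ModularForm.eta z = Complex.exp (-τ / 12) * D (Complex.exp (-τ)) := by
    unfold ModularForm.eta D
    congr 1
    · unfold Function.Periodic.qParam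
      congr 1
      rw [hz]
      push_cast
      field_simp
      rw [I_sq]
      ring
    · refine tprod_congr fun j => ?_
      unfold ModularForm.eta_q Function.Periodic.qParam
      have hh : Complex.exp (2 * (Real.pi : ℂ) * I * z / ((1 : ℝ) : ℂ)) =
          Complex.exp (-τ) ^ 2 := by
        rw [← Complex.exp_nat_mul]
        congr 1
        rw [hz]
        push_cast
        field_simp
        rw [I_sq]
      rw [hh, ← pow_mul]
  have e2 : ModularForm.eta (I * ((Real.pi : ℂ) / τ)) =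
      Complex.exp (-((Real.pi : ℂ) ^ 2 / (12 * τ))) *
        ∏' j : ℕ, (1 - Complex.exp (-2 * (Real.pi : ℂ) ^ 2 / τ) ^ (j + 1)) := by
    unfold ModularForm.eta
    congr 1
    · unfold Function.Periodic.qParam
      congr 1
      push_cast
      field_simp
      rw [I_sq]
      ring
    · refine tprod_congr fun j => ?_
      unfold ModularForm.eta_q Function.Periodic.qParam
      congr 3
      push_cast
      field_simp
      rw [I_sq]
  rw [e1, e2] at key
  have hsz : Complex.sqrt z ≠ 0 := by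
    rw [sqrt_eq_exp hz0]
    exact Complex.exp_ne_zero _
  have hsI : Complex.sqrt I ≠ 0 := by
    rw [sqrt_eq_exp I_ne_zero]
    exact Complex.exp_ne_zero _
  have hr := sqrt_ratio τ hτ
  rw [← hz] at hr
  rw [← hr]
  have hE : Complex.exp (τ / 12 - (Real.pi : ℂ) ^ 2 / (12 * τ)) =
      Complex.exp (-((Real.pi : ℂ) ^ 2 / (12 * τ))) / Complex.exp (-τ / 12) := by
    rw [← Complex.exp_sub]
    congr 1
    ring
  rw [hE]
  have hE0 : Complex.exp (-τ / 12) ≠ 0 := Complex.exp_ne_zero _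
  have key2 : Complex.sqrt I * (Complex.exp (-((Real.pi : ℂ) ^ 2 / (12 * τ))) *
        ∏' j : ℕ, (1 - Complex.exp (-2 * (Real.pi : ℂ) ^ 2 / τ) ^ (j + 1))) =
      Complex.sqrt z * (Complex.exp (-τ / 12) * D (Complex.exp (-τ))) := by
    rw [key, ← mul_assoc, mul_inv_cancel₀ hsI, one_mul]
  rw [div_mul_div_comm, div_mul_eq_mul_div, eq_div_iff (mul_ne_zero hsz hE0)]
  linear_combination -key2

theorem t_EP : S_EP := by
  intro q hq
  have hq0 : 0 ≤ ‖q‖ := norm_nonneg q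
  have hq1 : ‖q‖ < 1 := by linarith
  -- the partial products
  have hpart : ∀ n : ℕ, ‖∏ j ∈ Finset.range n, (1 - q ^ (j + 1)) - 1‖ ≤ 2 * ‖q‖ := by
    intro n
    have h1 := Finset.norm_prod_one_add_sub_one_le (Finset.range n) (fun j => -q ^ (j + 1))
    simp only [← sub_eq_add_neg, norm_neg, norm_pow] at h1
    refine h1.trans ?_
    have h2 : ∑ j ∈ Finset.range n, ‖q‖ ^ (j + 1) ≤ ‖q‖ / (1 - ‖q‖) := by
      have hs : HasSum (fun j : ℕ => ‖q‖ ^ (j + 1)) (‖q‖ / (1 - ‖q‖)) := by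
        have := (hasSum_geometric_of_lt_one hq0 hq1).mul_left ‖q‖
        simpa [pow_succ', div_eq_mul_inv] using this
      exact sum_le_hasSum _ (fun j _ => pow_nonneg hq0 _) hs
    have h3 : ‖q‖ / (1 - ‖q‖) ≤ 3 / 2 * ‖q‖ := by
      rw [div_le_iff₀ (by linarith)]
      nlinarith
    have h4 : ∑ j ∈ Finset.range n, ‖q‖ ^ (j + 1) ≤ 3 / 2 * ‖q‖ := h2.trans h3
    have h5 : (0 : ℝ) ≤ ∑ j ∈ Finset.range n, ‖q‖ ^ (j + 1) :=
      Finset.sum_nonneg fun j _ => pow_nonneg hq0 _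
    have h6 : |∑ j ∈ Finset.range n, ‖q‖ ^ (j + 1)| ≤ 1 := by
      rw [abs_of_nonneg h5]
      linarith
    have h7 := Real.abs_exp_sub_one_sub_id_le h6
    have h8 := (abs_le.mp h7).2
    nlinarith
  have hm : Multipliable fun j : ℕ => (1 - q ^ (j + 1)) :=
    ModularForm.multipliable_one_sub_pow hq1
  have ht : Tendsto (fun n => ‖∏ j ∈ Finset.range n, (1 - q ^ (j + 1)) - 1‖) atTop
      (nhds ‖∏' j : ℕ, (1 - q ^ (j + 1)) - 1‖) :=
    ((hm.hasProd.tendsto_prod_nat).sub_const 1).norm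
  exact le_of_tendsto ht (Filter.Eventually.of_forall hpart)

theorem t_DN (h : S_MOD) (h2 : S_EP) : S_DN := by
  intro t θ ht ht1 hθ
  have hpi : (0 : ℝ) < Real.pi := Real.pi_pos
  have hre : (tau t θ).re = t := by simp [tau]
  have him : (tau t θ).im = -θ := by simp [tau]
  have hn : Complex.normSq (tau t θ) = t ^ 2 + θ ^ 2 := by
    rw [Complex.normSq_apply, hre, him]
    ring
  have hpos : 0 < t ^ 2 + θ ^ 2 := by positivity
  have htau0 : tau t θ ≠ 0 := fun h0 => by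
    rw [h0] at hre
    simp at hre
    linarith
  have hinv : ((tau t θ)⁻¹).re = t / (t ^ 2 + θ ^ 2) := by
    rw [Complex.inv_re, hn, hre]
  unfold qq
  rw [h (tau t θ) (by rw [hre]; exact ht)]
  set P : ℂ := ∏' j : ℕ, (1 - Complex.exp (-2 * (Real.pi : ℂ) ^ 2 / tau t θ) ^ (j + 1)) with hP
  -- the nome
  have hθ2 : θ ^ 2 ≤ 64 * t ^ 2 := by
    have := sq_le_sq' (by linarith [abs_nonneg θ, neg_abs_le θ, abs_nonneg (8 * t)] : -(8 * t) ≤ |θ|) hθ
    rw [sq_abs] at this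
    linarith
  have hr : 90 / 65 ≤ t / (t ^ 2 + θ ^ 2) := by
    rw [le_div_iff₀ hpos]
    nlinarith
  have hre2 : (-2 * (Real.pi : ℂ) ^ 2 / tau t θ).re = -2 * Real.pi ^ 2 * (t / (t ^ 2 + θ ^ 2)) := by
    rw [div_eq_mul_inv]
    have e : -2 * (Real.pi : ℂ) ^ 2 = ((-2 * Real.pi ^ 2 : ℝ) : ℂ) := by push_cast; ring
    rw [e, Complex.re_ofReal_mul, hinv]
  have hnome : ‖Complex.exp (-2 * (Real.pi : ℂ) ^ 2 / tau t θ)‖ ≤ 1 / 1000 := by
    rw [Complex.norm_exp, hre2]
    have h3 : Real.pi > 3 := Real.pi_gt_three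
    have h4 : -2 * Real.pi ^ 2 * (t / (t ^ 2 + θ ^ 2)) ≤ -8 := by nlinarith
    refine (Real.exp_le_exp.mpr h4).trans ?_
    have h5 : Real.exp (-8) = (Real.exp 1 ^ 8)⁻¹ := by
      rw [← Real.exp_nat_mul, ← Real.exp_neg]
      norm_num
    rw [h5]
    have h6 : (2.7 : ℝ) < Real.exp 1 := lt_trans (by norm_num) Real.exp_one_gt_d9
    have h7 : (1000 : ℝ) ≤ Real.exp 1 ^ 8 := by
      have h8 : (2.7 : ℝ) ^ 8 ≤ Real.exp 1 ^ 8 := pow_le_pow_left₀ (by norm_num) h6.le 8
      have h9 : (1000 : ℝ) ≤ (2.7 : ℝ) ^ 8 := by norm_num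
      exact h9.trans h8
    rw [one_div]
    exact inv_anti₀ (by norm_num) h7
  have hPn : 99 / 100 ≤ ‖P‖ := by
    have h3 := h2 _ hnome
    rw [← hP] at h3
    have h4 := norm_sub_norm_le (1 : ℂ) P
    rw [norm_one, norm_sub_rev] at h4
    linarith
  rw [norm_mul, norm_mul]
  have e1 : ‖((Real.pi : ℂ) / tau t θ) ^ (1 / 2 : ℂ)‖ = Real.sqrt (Real.pi / ‖tau t θ‖) := by
    have hne : (Real.pi : ℂ) / tau t θ ≠ 0 := div_ne_zero (by exact_mod_cast hpi.ne') htau0
    have : (1 / 2 : ℂ) = ((1 / 2 : ℝ) : ℂ) := by push_cast; ring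
    rw [this, Complex.norm_cpow_real, norm_div, Real.sqrt_eq_rpow]
    congr 2
    simp [abs_of_pos hpi]
  have e2 : Real.exp (-(Real.pi ^ 2 / 12 * (t / (t ^ 2 + θ ^ 2)))) ≤
      ‖Complex.exp (tau t θ / 12 - (Real.pi : ℂ) ^ 2 / (12 * tau t θ))‖ := by
    rw [Complex.norm_exp]
    refine Real.exp_le_exp.mpr ?_
    have e : tau t θ / 12 - (Real.pi : ℂ) ^ 2 / (12 * tau t θ) =
        ((1 / 12 : ℝ) : ℂ) * tau t θ - ((Real.pi ^ 2 / 12 : ℝ) : ℂ) * (tau t θ)⁻¹ := by
      push_cast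
      field_simp
    rw [e, Complex.sub_re, Complex.re_ofReal_mul, Complex.re_ofReal_mul, hinv, hre]
    linarith
  rw [e1]
  have hA : 0 ≤ Real.sqrt (Real.pi / ‖tau t θ‖) := Real.sqrt_nonneg _
  have hB : 0 < Real.exp (-(Real.pi ^ 2 / 12 * (t / (t ^ 2 + θ ^ 2)))) := Real.exp_pos _
  calc 99 / 100 * Real.sqrt (Real.pi / ‖tau t θ‖) *
        Real.exp (-(Real.pi ^ 2 / 12 * (t / (t ^ 2 + θ ^ 2))))
      = Real.sqrt (Real.pi / ‖tau t θ‖) *
          Real.exp (-(Real.pi ^ 2 / 12 * (t / (t ^ 2 + θ ^ 2)))) * (99 / 100) := by ring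
    _ ≤ Real.sqrt (Real.pi / ‖tau t θ‖) *
          ‖Complex.exp (tau t θ / 12 - (Real.pi : ℂ) ^ 2 / (12 * tau t θ))‖ * ‖P‖ := by
        apply mul_le_mul _ hPn (by norm_num) (by positivity)
        exact mul_le_mul_of_nonneg_left e2 hA

end K1H59.OP
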